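import Pool.Agent.Helper22.G4.St.A1

/-! # G4-A2: stacking -/

namespace Pool.Agent.Helper13.G4

open Submodule Pool.Agent.Helper22.G4

variable {V : Type*}

/-- G4-A2 (stacking). -/
theorem stack [DecidableEq V] {A B : Finset V} (hAB : Disjoint A B) {𝓩 : Set (Set V)}
    (h : Realizable A 𝓩) (T : V → Finset V) (hT : ∀ z ∈ B, (T z : Set V) ∈ 𝓩)
    (hmax : ∀ z ∈ B, ∀ Z ∈ 𝓩, (T z : Set V) ⊆ Z → Z = T z)
    (hinj : ∀ z ∈ B, ∀ y ∈ B, T z = T y → z = y) (hne : ∀ z ∈ B, (T z).Nonempty)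
    (hA : ∀ z ∈ B, T z ≠ A) :
    Realizable (A ∪ B) (addFam 𝓩 B fun z => {Z | Z = (T z : Set V)}) := by
  obtain ⟨c, Φ, hC, hZ⟩ := h
  have hsub : ∀ z ∈ B, T z ⊆ A := by
    intro z hz
    have h1 := hT z hz
    rw [← hZ] at h1
    obtain ⟨φ, _, h2⟩ := h1
    intro v hv
    have h3 : v ∈ (T z : Set V) := hv
    rw [← h2] at h3
    exact h3.1
  have key := add_general hAB hC (fun z => {φ | φ ∈ Φ ∧ zs c A φ = (T z : Set V)}) T
    (fun _ => ∑ v ∈ A, c v) (fun z _ φ hφ => hφ.1) hsub hne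
    (by
      intro z hz y hy hzy
      rw [Set.disjoint_left]
      rintro φ ⟨_, h1⟩ ⟨_, h2⟩
      refine hzy (hinj z hz y hy ?_)
      have h3 := h1.symm.trans h2
      exact Finset.coe_injective h3)
    (by
      rintro z hz φ ⟨hφ, h1⟩
      constructor
      · rw [map_sum]
        refine Finset.sum_eq_zero fun v hv => ?_
        have h2 : v ∈ (T z : Set V) := hv
        rw [← h1] at h2
        exact h2.2
      · rw [map_sum]
        refine Finset.sum_pos' (fun v hv => hC.nonneg φ hφ v hv) ?_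
        by_contra hcon
        push Not at hcon
        refine hA z hz (Finset.Subset.antisymm (hsub z hz) fun v hv => ?_)
        have h2 : v ∈ zs c A φ := ⟨hv, le_antisymm (hcon v hv) (hC.nonneg φ hφ v hv)⟩
        rw [h1] at h2
        exact h2)
    (by
      intro z hz φ hφ hφV
      left
      rw [map_sum]
      refine Finset.sum_pos' (fun v hv => hC.nonneg φ hφ v (hsub z hz hv)) ?_
      by_contra hcon
      push Not at hcon
      refine hφV ⟨hφ, hmax z hz _ (hZ ▸ Set.mem_image_of_mem _ hφ) ?_⟩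
      intro v hv
      exact ⟨hsub z hz hv, le_antisymm (hcon v hv) (hC.nonneg φ hφ v (hsub z hz hv))⟩)
  refine (congrArg (Realizable (A ∪ B)) ?_).mpr key
  subst hZ
  unfold addFam
  congr 1
  · ext Z
    simp only [Set.mem_ofPred_eq, Set.mem_image]
    constructor
    · rintro ⟨⟨φ, hφ, rfl⟩, h2⟩
      exact ⟨φ, hφ, fun z hz h3 => h2 z hz h3.2, rfl⟩
    · rintro ⟨φ, hφ, h2, rfl⟩
      exact ⟨⟨φ, hφ, rfl⟩, fun z hz h3 => h2 z hz ⟨hφ, h3⟩⟩
  · ext Z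
    simp only [Set.mem_ofPred_eq, Set.mem_image]
    constructor
    · rintro ⟨z, hz, Z₁, ⟨φ, hφ, rfl⟩, h1, Z₂, ⟨ψ, hψ, rfl⟩, h2, rfl⟩
      exact ⟨z, hz, φ, ⟨hφ, h1⟩, ψ, hψ, fun h3 => h2 h3.2, rfl⟩
    · rintro ⟨z, hz, φ, ⟨hφ, h1⟩, ψ, hψ, h2, rfl⟩
      exact ⟨z, hz, _, ⟨φ, hφ, rfl⟩, h1, _, ⟨ψ, hψ, rfl⟩, fun h3 => h2 ⟨hψ, h3⟩, rfl⟩

end Pool.Agent.Helper13.G4
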